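import Pool.Agent.Results.MP_05f553_nt.MultiplicativeValues
import Pool.Agent.N790.CM.C
import Pool.Agent.N760.IT.C

/-!
# Philippon's inequality near the multiples of Carmichael's function and the orbits of Euler's function

Let `P n` say that Philippon's inequality holds for ALL nonzero rationals `x` (case 1, with `s = 2 A / α`), or for all
those of height at most `T n ^ γ` (case 2, with `s = 2 γ + A / (α B)`), and all `y` of height at most `n ^ A` with numerator
`± n` or denominator `n`. For almost all `m`, `P n` holds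

(1) for EVERY integer `n` within `w ^ κ` of `G w` for some multiple `w ≤ N ^ R` of Carmichael's function `λ(m)`, if
`R (d s + κ) < 1`;

(2) for EVERY integer `n` within `w ^ κ` of `G w` for some `w = f (φ_k m)`, `k ≤ K(m)`, where `φ_k` is the `k`-th iterate of
Euler's function, `K(m) → ∞`, and `f` is a multiplicative function like `m`, `φ` or `σ`, if `d s + κ < 1`.

Here `G v = a v ^ d`, or any function with steps bounded below and growth at most `v ^ d`. An `m` has a power of `N` such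
multiples, and these values are taken very often; so this does not follow from the number `O (X ^ (s + δ))` of the
exceptional `n` (starting file `FewExceptions`). The tools are `N790/CM` and `N760/IT` of the starting files.
-/

set_option autoImplicit false

open Filter Topology

namespace Pool.Agent.Results.MP_05f553_nt.CarmichaelAndOrbits

open Pool.Agent.N733.TG (LM Expanding lm_totient lm_sigma expanding_pow)
open Pool.Agent.N790.CM (FewTimes Carries OnMultiples keep_good_nat fewTimes_pred fewTimes_poly pred_dvd_carmichael)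
open Pool.Agent.N760.IT (orbit_good_nat lm_id)
open Pool.Agent.Results.MP_05f553_nt.MultiplicativeValues (hgt Good BadG countG good_iff)

/-- The properties of `n` in question, with the exponent `s`. Case 1: the inequality of Philippon holds for ALL nonzero
rationals `x` and all nonzero `y` of height at most `n ^ A` with numerator `± n` or denominator `n`. Case 2: the same for all
nonzero `x` of height at most `T n ^ γ`. -/
def Case (B : ℕ) (α β ε A s : ℝ) (P : ℕ → Prop) : Prop :=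
  (s = 2 * A / α ∧ ∀ n : ℕ, P n ↔ ∀ x : ℚ, x ≠ 0 → Good B α β ε A x n) ∨
  ∃ T γ : ℝ, 0 ≤ γ ∧ s = 2 * γ + A / (α * B) ∧
    ∀ n : ℕ, P n ↔ ∀ x : ℚ, x ≠ 0 → hgt x ≤ T * (n : ℝ) ^ γ → Good B α β ε A x n

lemma good_zero (B : ℕ) (α β ε A : ℝ) (x : ℚ) : Good B α β ε A x 0 := by
  intro y hy _ _ h _
  exfalso
  rcases h with h | h
  · exact hy (Rat.num_eq_zero.1 (Int.natAbs_eq_zero.1 h))
  · exact y.den_ne_zero h

lemma Case.zero {B : ℕ} {α β ε A s : ℝ} {P : ℕ → Prop} (h : Case B α β ε A s P) : P 0 := by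
  rcases h with ⟨-, h⟩ | ⟨T, γ, -, -, h⟩
  · exact (h 0).2 fun x _ => good_zero B α β ε A x
  · exact (h 0).2 fun x _ _ => good_zero B α β ε A x

lemma Case.nonneg {B : ℕ} {α β ε A s : ℝ} {P : ℕ → Prop} (h : Case B α β ε A s P) (hα : 1 ≤ α) (hA : 1 ≤ A) : 0 ≤ s := by
  rcases h with ⟨h, -⟩ | ⟨T, γ, hγ, h, -⟩
  · rw [h]
    positivity
  · rw [h]
    positivity

lemma Case.count {B : ℕ} {α β ε A s : ℝ} {P : ℕ → Prop} (h : Case B α β ε A s P) (hα : 1 ≤ α) (hβ : 0 ≤ β)
    (hε : ε < 1 / 2) (hB : 2 ≤ ε * B) (hA : 1 ≤ A) : ∀ δ : ℝ, 0 < δ → ∃ C : ℝ, ∀ X : ℕ, 1 ≤ X →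
      ({t : ℕ | 1 ≤ t ∧ t ≤ X ∧ True ∧ ¬ P t}.ncard : ℝ) ≤ C * (X : ℝ) ^ (s + δ) := by
  classical
  have key : ∀ (W : Set ℕ) (X : ℕ), (∀ t : ℕ, ¬ P t → t ∈ W) →
      {t : ℕ | 1 ≤ t ∧ t ≤ X ∧ True ∧ ¬ P t}.ncard ≤ ((Finset.Ioc 0 X).filter (fun m => m ∈ W)).card := by
    intro W X hW
    rw [← Set.ncard_coe_finset]
    refine Set.ncard_le_ncard ?_ (Finset.finite_toSet _)
    rintro t ⟨h1, h2, -, h3⟩
    exact Finset.mem_coe.2 (Finset.mem_filter.2 ⟨Finset.mem_Ioc.2 ⟨h1, h2⟩, hW t h3⟩)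
  intro δ hδ
  rcases h with ⟨hs, h⟩ | ⟨T, γ, hγ, hs, h⟩
  · obtain ⟨C, hC⟩ := SequenceHeights.count B α β ε A hα hβ hε hB hA δ hδ
    refine ⟨C, fun X hX => le_trans (Nat.cast_le.2 (key (SequenceHeights.Bad B α β ε A) X ?_)) ?_⟩
    · intro t ht
      rw [h t] at ht
      push Not at ht
      obtain ⟨x, hx, hg⟩ := ht
      exact ⟨x, hx, fun h1 => hg ((good_iff _ _ _ _ _ _ _).2 h1)⟩
    · have e : s = A * (2 / α) := by rw [hs]; ring
      rw [e]
      exact le_trans (le_of_eq (by congr!)) (hC X hX)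
  · obtain ⟨C, hC⟩ := countG B α β ε A (max T 1) γ hα hβ hε hB hA (le_max_right _ _) hγ δ hδ
    refine ⟨C, fun X hX => le_trans (Nat.cast_le.2 (key (BadG B α β ε A (max T 1) γ) X ?_)) ?_⟩
    · intro t ht
      rw [h t] at ht
      push Not at ht
      obtain ⟨x, hx, hh, hg⟩ := ht
      exact ⟨x, hx, hh.trans (mul_le_mul_of_nonneg_right (le_max_left _ _) (by positivity)), hg⟩
    · rw [hs]
      exact le_trans (le_of_eq (by congr!)) (hC X hX)

lemma almost {P Q : ℕ → Prop} (h : Pool.Agent.N826.IT.Orb.AlmostAll P) (hPQ : ∀ m, P m → Q m) :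
    Tendsto (fun N : ℕ => ({m : ℕ | 1 ≤ m ∧ m ≤ N ∧ ¬ Q m}.ncard : ℝ) / N) atTop (𝓝 0) := by
  classical
  unfold Pool.Agent.N826.IT.Orb.AlmostAll at h
  refine squeeze_zero (fun N => by positivity) (fun N => ?_) h
  refine div_le_div_of_nonneg_right ?_ (Nat.cast_nonneg _)
  rw [← Set.ncard_coe_finset]
  refine Nat.cast_le.2 (Set.ncard_le_ncard ?_ (Finset.finite_toSet _))
  rintro m ⟨g1, g2, g3⟩
  exact Finset.mem_coe.2 (Finset.mem_filter.2 ⟨Finset.mem_Icc.2 ⟨g1, g2⟩, fun hcon => g3 (hPQ m hcon)⟩)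

/-- **Theorem.** Let `B ≥ 1`, `α ≥ 1`, `β ≥ 0`, `2 / B ≤ ε < 1 / 2`, `A ≥ 1` and `κ ≥ 0`, let `P` and `s` be as in
`Case`, and let `G` have steps `≥ a > 0` and growth at most `v ^ d`.

(1) Let `R ≥ 1`, `R (d s + κ) < 1`, and let `f` take each positive value at most `T` times at the primes. For every `U` and
all large `N`, for all `m ≤ N` but `N / (log N) ^ U`: for EVERY `w` with `1 ≤ w ≤ N ^ R` and `f(p) ∣ w` for all primes
`p > exp (√(log N))` which divide `m` exactly once, `P n` holds for ALL natural numbers `n` with `|n - G w| ≤ w ^ κ`. Every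
multiple of Carmichael's function `λ(m)` is admissible for `f(p) = p - 1`, and `f(p) = |Q(p)|` is another example.

(2) Let `d s + κ < 1` and let `f` be multiplicative and positive, of at most polynomial growth, with `f p ≤ M p` at the
large primes, and injective there, for instance `f(m) = m`, Euler's function or the sum of the divisors. There is `K(m) → ∞`
such that for almost all `m` (natural density), for all `k ≤ K(m)`, with `w = f (φ(φ(⋯ φ(m))))`, `k` times `φ`, `P n` holds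
for ALL natural numbers `n` with `|n - G w| ≤ w ^ κ`. -/
theorem result (B : ℕ) (α β ε A κ : ℝ) (hα : 1 ≤ α) (hβ : 0 ≤ β) (hε : ε < 1 / 2) (hB : 2 ≤ ε * B) (hA : 1 ≤ A)
    (hκ : 0 ≤ κ) :
    (∀ (s : ℝ) (P : ℕ → Prop), Case B α β ε A s P → ∀ (G : ℕ → ℝ) (d : ℝ), Expanding G d →
      (∀ R : ℝ, 1 ≤ R → R * (d * s + κ) < 1 → ∀ (f : ℕ → ℕ) (T : ℕ), FewTimes f T → ∀ U : ℕ, ∃ N₀ : ℕ, ∀ N : ℕ, N₀ ≤ N →
        ({m : ℕ | 1 ≤ m ∧ m ≤ N ∧ ¬ ∀ w : ℕ, 1 ≤ w → (w : ℝ) ≤ (N : ℝ) ^ R →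
            Carries f (Real.exp √(Real.log N)) m w → ∀ n : ℕ, |(n : ℝ) - G w| ≤ (w : ℝ) ^ κ → P n}.ncard : ℝ) ≤
          N / Real.log N ^ U) ∧
      (d * s + κ < 1 → ∀ f : ℕ → ℕ, LM f → ∃ K : ℕ → ℕ, Tendsto K atTop atTop ∧
        Tendsto (fun N : ℕ => ({m : ℕ | 1 ≤ m ∧ m ≤ N ∧ ¬ ∀ k ≤ K m, ∀ n : ℕ,
          |(n : ℝ) - G (f (Nat.totient^[k] m))| ≤ (f (Nat.totient^[k] m) : ℝ) ^ κ → P n}.ncard : ℝ) / N)
          atTop (𝓝 0))) ∧
    (FewTimes (fun p => p - 1) 1 ∧
      ∀ (y : ℝ) (m w : ℕ), ArithmeticFunction.carmichael m ∣ w → Carries (fun p => p - 1) y m w) ∧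
    (∀ Q : Polynomial ℤ, 1 ≤ Q.natDegree → FewTimes (fun p => (Q.eval (p : ℤ)).natAbs) (2 * Q.natDegree)) ∧
    (LM (fun m => m) ∧ LM Nat.totient ∧ LM (fun m => ∑ d ∈ m.divisors, d)) ∧
    ∀ a d : ℝ, 0 < a → 1 ≤ d → Expanding (fun v => a * (v : ℝ) ^ d) d := by
  refine ⟨fun s P hP G d hG => ⟨fun R hR h1 f T hf U => ?_, fun h1 f hf => ?_⟩,
    ⟨fewTimes_pred, fun y m w h p hp _ hpm _ => (pred_dvd_carmichael hp hpm).trans h⟩,
    fewTimes_poly, ⟨lm_id, lm_totient, lm_sigma⟩, fun α d hα hd => expanding_pow hα hd⟩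
  · have key := keep_good_nat (fun _ => True) P hG (s := s) (κ := κ) (hP.nonneg hα hA) hκ hR h1
      (hP.count hα hβ hε hB hA)
    refine (key.mono fun w _ hw n hn => ?_) f T hf U
    rcases Nat.eq_zero_or_pos n with h0 | h0
    · rw [h0]
      exact hP.zero
    · exact hw n h0 trivial hn
  · obtain ⟨K, hK, h2⟩ := orbit_good_nat (fun _ => True) P hf hG (s := s) (κ := κ) (hP.nonneg hα hA) hκ h1
      (hP.count hα hβ hε hB hA)
    refine ⟨K, hK, almost h2 fun m hm k hk n hn => ?_⟩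
    rcases Nat.eq_zero_or_pos n with h0 | h0
    · rw [h0]
      exact hP.zero
    · exact hm k hk n h0 trivial hn

end Pool.Agent.Results.MP_05f553_nt.CarmichaelAndOrbits
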