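import Pool.Agent.R942.HX.Torus
import Pool.Agent.Results.MP_05f553_nt.RandomSets

/-!
# Philippon's inequality for all pairs which have digit strings in common with typical numbers

Let `ε < 1 / 2` and `ε B ≥ 2`. We say that a real number `N` and `θ` have a common string of precision `ρ` in base `b` if
`|N / b ^ i - b ^ m θ - j| ≤ ρ` for some integer `j`, some `i` with `b ^ i ≤ b Y` and some `m ≤ Z`: about
`- log ρ / log b` consecutive digits of `N`, at any place, are consecutive digits of `θ`, at any place up to the `Z`-th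
digit.

(1) For almost every real number `θ`, all `b ≥ 2`, `u ≥ 0`, `v > u` and all `B`, `ε` there is `α` such that Philippon's
inequality with the constants `B`, `α`, `β = 0`, `ε` holds for ALL pairs `(x, y)` for which the numerator or the
denominator of `y` has a common string with `θ` of precision `H(y) ^ (-v)`, at any place up to the `H(y) ^ u`-th digit
of `θ`. So it is enough that an arbitrarily small proportion of the digits of the numerator (or denominator), at any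
place, is a string of digits of `θ`. If `α ≥ 1`, `β ≥ 0` are given and `v > u + 2 / α` only finitely many pairs violate
the inequality, and for a fixed `x` this is so for `v > u + 1 / (α B)`.

(2) Let `r ≥ 1` and let `N_1, …, N_r` be any real functions of `(x, y)`, `w ≥ 0`. The same is true for almost all real
`(θ_1, …, θ_r)` and all pairs such that each `N_k (x, y)` has a common string with `θ_k` of precision `H(y) ^ (-v)`,
`b ^ i ≤ b H(y) ^ w`, at any place up to the `H(y) ^ u`-th digit of `θ_k`, with `v > u + 2 / (α r)` and, for a fixed `x`,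
`v > u + 1 / (α B r)`.

The number of the pairs which violate the inequality is bounded in the starting result `FewExceptions`; the tool for digit
strings is `Pool.Agent.R942.HX` (starting file, used there for Hall's conjecture).
-/

set_option autoImplicit false

namespace Pool.Agent.Results.MP_05f553_nt.CommonDigitStrings

open MeasureTheory

/-- The logarithmic height `log max (|a|, |b|)` of `r = a / b` (lowest terms). -/
noncomputable def ht (r : ℚ) : ℝ := Real.log (max |((r.num : ℤ) : ℝ)| ((r.den : ℕ) : ℝ))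

/-- The height `max (|a|, |b|)` of `r = a / b` (lowest terms). -/
noncomputable def height (r : ℚ) : ℝ := max |((r.num : ℤ) : ℝ)| ((r.den : ℕ) : ℝ)

/-- The inequality of the question for the pair `(x, y)`; the sums are over the primes which divide
the numerator of `x y ^ B + 1`. -/
def Holds (B : ℕ) (α β ε : ℝ) (x y : ℚ) : Prop :=
  -(∑ p ∈ (x * y ^ B + 1).num.natAbs.primeFactors,
      Real.log ((padicNorm p (x * y ^ B + 1) : ℚ) : ℝ))
    ≤ α * (B : ℝ) * ht x + ε * (B : ℝ) * ht y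
      + (B : ℝ) * (α * (B : ℝ) + ε) *
          (β + ∑ p ∈ (x * y ^ B + 1).num.natAbs.primeFactors, Real.log (p : ℝ))

/-- the pairs of the question: nonzero rational numbers with `x y ^ B ≠ 1, -1` -/
def Admissible (B : ℕ) (x y : ℚ) : Prop := x ≠ 0 ∧ y ≠ 0 ∧ x * y ^ B ≠ 1 ∧ x * y ^ B ≠ -1

/-- `N` and `θ` have a common string of precision `ρ` in base `b`: `|N / b ^ i - b ^ m θ - j| ≤ ρ` for some integer `j`,
some `i` with `b ^ i ≤ b Y` and some `m ≤ Z` -/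
def CommonString (b : ℕ) (θ Y Z ρ N : ℝ) : Prop :=
  ∃ i m : ℕ, ∃ j : ℤ, (b : ℝ) ^ i ≤ b * Y ∧ (m : ℝ) ≤ Z ∧ |N / (b : ℝ) ^ i - (b : ℝ) ^ m * θ - j| ≤ ρ

/-- each `N_k (x, y)` has a common string with `θ_k` of precision `H(y) ^ (-v)`, `b ^ i ≤ b H(y) ^ w`, at any place up to
the `H(y) ^ u`-th digit of `θ_k` -/
def Strings (b : ℕ) {r : ℕ} (θ : Fin r → ℝ) (N : Fin r → ℚ × ℚ → ℝ) (w u v : ℝ) (x y : ℚ) : Prop :=
  ∀ k, CommonString b (θ k) (height y ^ w) (height y ^ u) (height y ^ (-v)) (N k (x, y))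

/-- the numerator or the denominator of `y` has a common string with `θ` of precision `H(y) ^ (-v)`, at any place up to
the `H(y) ^ u`-th digit of `θ` -/
def OneString (b : ℕ) (θ u v : ℝ) (y : ℚ) : Prop :=
  CommonString b θ (height y) (height y ^ u) (height y ^ (-v)) |((y.num : ℤ) : ℝ)| ∨
    CommonString b θ (height y) (height y ^ u) (height y ^ (-v)) ((y.den : ℕ) : ℝ)

lemma one_le_height (r : ℚ) : 1 ≤ height r := le_max_of_le_right (by exact_mod_cast r.pos)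

lemma ht_nonneg (r : ℚ) : 0 ≤ ht r := Real.log_nonneg (one_le_height r)

lemma sum_nonneg (x y : ℚ) (B : ℕ) :
    0 ≤ ∑ p ∈ (x * y ^ B + 1).num.natAbs.primeFactors, Real.log (p : ℝ) :=
  Finset.sum_nonneg fun p hp =>
    Real.log_nonneg (by exact_mod_cast (Nat.prime_of_mem_primeFactors hp).one_lt.le)

/-- the inequality becomes weaker if the constants grow -/
lemma Holds.mono {B : ℕ} {α α' β β' ε ε' : ℝ} {x y : ℚ} (h : Holds B α β ε x y) (hε0 : 0 ≤ ε)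
    (hε : ε ≤ ε') (hα0 : 0 ≤ α) (hα : α ≤ α') (hβ : β ≤ β') (hβ0 : 0 ≤ β) : Holds B α' β' ε' x y := by
  have h0 : Holds B α' β' ε x y :=
    RandomSets.Holds.mono (B := B) (α := α) (α' := α') (β := β) (β' := β') (ε := ε) h hε0 hα0 hα hβ hβ0
  unfold Holds at h0 ⊢
  refine h0.trans ?_
  have hB : (0 : ℝ) ≤ B := Nat.cast_nonneg B
  have h1 := ht_nonneg y
  have h2 := sum_nonneg x y B
  set L := ∑ p ∈ (x * y ^ B + 1).num.natAbs.primeFactors, Real.log (p : ℝ) with hL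
  have h3 : ε * (B : ℝ) * ht y ≤ ε' * (B : ℝ) * ht y :=
    mul_le_mul_of_nonneg_right (mul_le_mul_of_nonneg_right hε hB) h1
  have h4 : (B : ℝ) * (α' * (B : ℝ) + ε) * (β' + L) ≤ (B : ℝ) * (α' * (B : ℝ) + ε') * (β' + L) :=
    mul_le_mul_of_nonneg_right (mul_le_mul_of_nonneg_left (by linarith) hB) (by linarith)
  linarith

open Pool.Agent.R942.HX (Sparse)

/-- the exceptional pairs are sparse -/
lemma sparse_pairs {B : ℕ} {a ε : ℝ} (ha : 1 ≤ a) (hε : ε < 1 / 2) (hB : 2 ≤ ε * B) :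
    Sparse (fun t : ℚ × ℚ => height t.2) {t | Admissible B t.1 t.2 ∧ ¬ Holds B a 0 ε t.1 t.2} (2 / a) := by
  refine ⟨fun t _ => one_le_height t.2, fun δ hδ => ?_⟩
  obtain ⟨C, hC⟩ := FewExceptions.result B a 0 ε δ ha le_rfl hε hB hδ
  refine ⟨C, fun Y hY => ?_⟩
  obtain ⟨h1, h2, -⟩ := hC Y hY
  have e : {t : ℚ × ℚ | t ∈ {t : ℚ × ℚ | Admissible B t.1 t.2 ∧ ¬ Holds B a 0 ε t.1 t.2} ∧ height t.2 ≤ Y} =
      FewExceptions.Exceptions B a 0 ε Y := by
    ext t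
    constructor
    · rintro ⟨⟨⟨h3, h4, h5, h6⟩, h7⟩, h8⟩
      exact ⟨h3, h4, h5, h6, h8, h7⟩
    · rintro ⟨h3, h4, h5, h6, h8, h7⟩
      exact ⟨⟨⟨h3, h4, h5, h6⟩, h7⟩, h8⟩
  rw [e]
  exact ⟨h1, h2⟩

/-- for each `x` the exceptional `y` are sparse -/
lemma sparse_fixed {B : ℕ} {a ε : ℝ} (ha : 1 ≤ a) (hε : ε < 1 / 2) (hB : 2 ≤ ε * B) (x : ℚ) :
    Sparse (fun y : ℚ => height y) {y | Admissible B x y ∧ ¬ Holds B a 0 ε x y} (1 / (a * B)) := by
  refine ⟨fun y _ => one_le_height y, fun δ hδ => ?_⟩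
  obtain ⟨C, hC⟩ := FewExceptions.result B a 0 ε δ ha le_rfl hε hB hδ
  refine ⟨C, fun Y hY => ?_⟩
  obtain ⟨h1, -, h2⟩ := hC Y hY
  have e : {y : ℚ | y ∈ {y : ℚ | Admissible B x y ∧ ¬ Holds B a 0 ε x y} ∧ height y ≤ Y} =
      {y : ℚ | (x, y) ∈ FewExceptions.Exceptions B a 0 ε Y} := by
    ext y
    constructor
    · rintro ⟨⟨⟨h3, h4, h5, h6⟩, h7⟩, h8⟩
      exact ⟨h3, h4, h5, h6, h8, h7⟩
    · rintro ⟨h3, h4, h5, h6, h8, h7⟩
      exact ⟨⟨⟨h3, h4, h5, h6⟩, h7⟩, h8⟩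
  rw [e]
  exact ⟨h1.preimage (Prod.mk_right_injective x).injOn, h2 x⟩

/-- a rational `a` between `1` and `α` with `u + κ / a < v` -/
lemma approx {α κ u v : ℝ} (hα : 1 ≤ α) (hκ : 0 ≤ κ) (h : u + κ / α < v) :
    ∃ a : ℚ, (1 : ℝ) ≤ a ∧ (a : ℝ) ≤ α ∧ u + κ / (a : ℝ) < v := by
  rcases hα.eq_or_lt with h0 | h0
  · refine ⟨1, by simp, by simp [h0], ?_⟩
    rw [← h0] at h
    simpa using h
  · have hα0 : 0 < α := by linarith
    have h1 : 0 < v - u := by
      have : 0 ≤ κ / α := by positivity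
      linarith
    have h2 : κ / (v - u) < α := by
      rw [div_lt_iff₀ h1]
      have h3 : κ / α < v - u := by linarith
      rw [div_lt_iff₀ hα0] at h3
      linarith
    obtain ⟨a, ha1, ha2⟩ := exists_rat_btwn (max_lt h0 h2)
    have ha3 : (1 : ℝ) < a := (le_max_left _ _).trans_lt ha1
    refine ⟨a, ha3.le, ha2.le, ?_⟩
    have ha4 := (le_max_right 1 (κ / (v - u))).trans_lt ha1
    rw [div_lt_iff₀ h1] at ha4
    have h5 : κ / (a : ℝ) < v - u := by
      rw [div_lt_iff₀ (by linarith)]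
      linarith
    linarith

/-- `ε = 2 / B` -/
lemma eps {B : ℕ} {ε : ℝ} (hε : ε < 1 / 2) (hB : 2 ≤ ε * B) :
    (0 : ℝ) < B ∧ 2 / (B : ℝ) < 1 / 2 ∧ 2 ≤ 2 / (B : ℝ) * B ∧ 2 / (B : ℝ) ≤ ε ∧ 0 ≤ 2 / (B : ℝ) := by
  have hB0 : (0 : ℝ) < B := by
    rcases Nat.eq_zero_or_pos B with h | h
    · rw [h] at hB
      norm_num at hB
    · exact_mod_cast h
  have h1 : 2 / (B : ℝ) ≤ ε := by
    rw [div_le_iff₀ hB0]
    exact hB
  exact ⟨hB0, h1.trans_lt hε, by rw [div_mul_cancel₀ _ hB0.ne'], h1, by positivity⟩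

/-- finitely many exceptional pairs, one null set for all constants -/
theorem fin_pairs {r : ℕ} (hr : 1 ≤ r) (N : Fin r → ℚ × ℚ → ℝ) {w : ℝ} (hw : 0 ≤ w) :
    ∀ᵐ θ : Fin r → ℝ, ∀ b : ℕ, 2 ≤ b → ∀ (B : ℕ) (α β ε u v : ℝ), 1 ≤ α → 0 ≤ β → ε < 1 / 2 → 2 ≤ ε * B → 0 ≤ u →
      u + 2 / α / r < v →
      {t : ℚ × ℚ | Admissible B t.1 t.2 ∧ Strings b θ N w u v t.1 t.2 ∧ ¬ Holds B α β ε t.1 t.2}.Finite := by
  have key : ∀ᵐ θ : Fin r → ℝ, ∀ (B : ℕ) (a : ℚ), (1 : ℝ) ≤ a → 2 / (B : ℝ) < 1 / 2 → 2 ≤ 2 / (B : ℝ) * B →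
      ∀ b : ℕ, 2 ≤ b → ∀ u v : ℝ, 0 ≤ u → u + 2 / (a : ℝ) / r < v →
      {t | t ∈ {t : ℚ × ℚ | Admissible B t.1 t.2 ∧ ¬ Holds B a 0 (2 / (B : ℝ)) t.1 t.2} ∧
        ∀ k, Pool.Agent.R942.HX.CommonString b (θ k) (height t.2 ^ w) (height t.2 ^ u) (height t.2 ^ (-v))
          (N k t)}.Finite := by
    rw [ae_all_iff]
    intro B
    rw [ae_all_iff]
    intro a
    by_cases h : (1 : ℝ) ≤ a ∧ 2 / (B : ℝ) < 1 / 2 ∧ 2 ≤ 2 / (B : ℝ) * B
    · filter_upwards [(sparse_pairs h.1 h.2.1 h.2.2).several (by have := h.1; positivity) hr N hw] with θ hθ _ _ _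
      exact hθ
    · filter_upwards with θ h1 h2 h3
      exact absurd ⟨h1, h2, h3⟩ h
  filter_upwards [key] with θ hθ b hb B α β ε u v hα hβ hε hB hu hv
  obtain ⟨hB0, e1, e2, e3, e4⟩ := eps hε hB
  have hr0 : (0 : ℝ) < r := by exact_mod_cast (by omega : 0 < r)
  have hv' : u + 2 / (r : ℝ) / α < v := by rwa [div_div, mul_comm, ← div_div]
  obtain ⟨a, ha1, ha2, ha3⟩ := approx hα (by positivity) hv'
  have ha3' : u + 2 / (a : ℝ) / r < v := by rwa [div_div, mul_comm, ← div_div]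
  refine (hθ B a ha1 e1 e2 b hb u v hu ha3').subset ?_
  rintro t ⟨h1, h2, h3⟩
  exact ⟨⟨h1, fun h => h3 (h.mono e4 e3 (by linarith) ha2 hβ le_rfl)⟩, h2⟩

/-- finitely many exceptional `y` for each `x`, one null set for all constants -/
theorem fin_fixed {r : ℕ} (hr : 1 ≤ r) (N : Fin r → ℚ × ℚ → ℝ) {w : ℝ} (hw : 0 ≤ w) :
    ∀ᵐ θ : Fin r → ℝ, ∀ b : ℕ, 2 ≤ b → ∀ (B : ℕ) (α β ε u v : ℝ), 1 ≤ α → 0 ≤ β → ε < 1 / 2 → 2 ≤ ε * B → 0 ≤ u →
      u + 1 / (α * B) / r < v → ∀ x : ℚ,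
      {y : ℚ | Admissible B x y ∧ Strings b θ N w u v x y ∧ ¬ Holds B α β ε x y}.Finite := by
  have key : ∀ᵐ θ : Fin r → ℝ, ∀ (x : ℚ) (B : ℕ) (a : ℚ), (1 : ℝ) ≤ a → 2 / (B : ℝ) < 1 / 2 → 2 ≤ 2 / (B : ℝ) * B →
      ∀ b : ℕ, 2 ≤ b → ∀ u v : ℝ, 0 ≤ u → u + 1 / ((a : ℝ) * B) / r < v →
      {y | y ∈ {y : ℚ | Admissible B x y ∧ ¬ Holds B a 0 (2 / (B : ℝ)) x y} ∧
        ∀ k, Pool.Agent.R942.HX.CommonString b (θ k) (height y ^ w) (height y ^ u) (height y ^ (-v))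
          (N k (x, y))}.Finite := by
    rw [ae_all_iff]
    intro x
    rw [ae_all_iff]
    intro B
    rw [ae_all_iff]
    intro a
    by_cases h : (1 : ℝ) ≤ a ∧ 2 / (B : ℝ) < 1 / 2 ∧ 2 ≤ 2 / (B : ℝ) * B
    · filter_upwards [(sparse_fixed h.1 h.2.1 h.2.2 x).several
        (by have := h.1; positivity) hr (fun k y => N k (x, y)) hw] with θ hθ _ _ _
      exact hθ
    · filter_upwards with θ h1 h2 h3
      exact absurd ⟨h1, h2, h3⟩ h
  filter_upwards [key] with θ hθ b hb B α β ε u v hα hβ hε hB hu hv x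
  obtain ⟨hB0, e1, e2, e3, e4⟩ := eps hε hB
  have hr0 : (0 : ℝ) < r := by exact_mod_cast (by omega : 0 < r)
  have hα0 : 0 < α := by linarith
  have hv' : u + 1 / ((B : ℝ) * r) / α < v := by
    have e : 1 / ((B : ℝ) * r) / α = 1 / (α * B) / r := by field_simp
    rwa [e]
  obtain ⟨a, ha1, ha2, ha3⟩ := approx hα (by positivity) hv'
  have ha0 : (0 : ℝ) < a := by linarith
  have ha3' : u + 1 / ((a : ℝ) * B) / r < v := by
    have e : 1 / ((B : ℝ) * r) / (a : ℝ) = 1 / ((a : ℝ) * B) / r := by field_simp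
    rwa [e] at ha3
  refine (hθ x B a ha1 e1 e2 b hb u v hu ha3').subset ?_
  rintro y ⟨h1, h2, h3⟩
  exact ⟨⟨h1, fun h => h3 (h.mono e4 e3 (by linarith) ha2 hβ le_rfl)⟩, h2⟩

/-- from finitely many exceptions to none: a larger `α` -/
lemma all_of_finite {B : ℕ} {ε : ℝ} (hε : ε < 1 / 2) (hB : 2 ≤ ε * B) {S : ℚ → ℚ → Prop} {a : ℝ} (ha : 1 ≤ a)
    (h : {t : ℚ × ℚ | Admissible B t.1 t.2 ∧ S t.1 t.2 ∧ ¬ Holds B a 0 ε t.1 t.2}.Finite) :
    ∃ α : ℝ, 1 ≤ α ∧ ∀ β : ℝ, 0 ≤ β → ∀ x y : ℚ, Admissible B x y → S x y → Holds B α β ε x y := by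
  obtain ⟨hB0, -, -, e3, e4⟩ := eps hε hB
  have hε0 : 0 ≤ ε := e4.trans e3
  have hB1 : 1 ≤ B := by exact_mod_cast hB0
  choose g hg0 hg using fun x y : ℚ => RandomSets.exists_alpha hB1 hε0 x y
  obtain ⟨M, hM⟩ := (h.image fun t : ℚ × ℚ => g t.1 t.2).bddAbove
  refine ⟨max a M, ha.trans (le_max_left _ _), fun β hβ x y hxy hmem => ?_⟩
  by_cases hh : Holds B a 0 ε x y
  · exact hh.mono hε0 le_rfl (by linarith) (le_max_left _ _) hβ le_rfl
  · have h1 := hM ⟨(x, y), ⟨hxy, hmem, hh⟩, rfl⟩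
    simp only at h1
    have h2 : Holds B (g x y) 0 ε x y := hg x y
    exact h2.mono hε0 le_rfl (hg0 x y) (h1.trans (le_max_right _ _)) hβ le_rfl

/-- a large `α` -/
lemma exists_a {u v : ℝ} (h : u < v) : ∃ a : ℝ, 1 ≤ a ∧ u + 2 / a < v := by
  refine ⟨max 1 (4 / (v - u)), le_max_left _ _, ?_⟩
  have h1 : 0 < v - u := by linarith
  have h2 : 4 / (v - u) ≤ max 1 (4 / (v - u)) := le_max_right _ _
  have h3 : (0 : ℝ) < max 1 (4 / (v - u)) := lt_of_lt_of_le one_pos (le_max_left _ _)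
  have h4 : 2 / max 1 (4 / (v - u)) ≤ (v - u) / 2 := by
    rw [div_le_iff₀ h3]
    rw [div_le_iff₀ h1] at h2
    linarith
  linarith

/-- **Theorem.** Let `ε < 1 / 2` and `ε B ≥ 2`.

(1) For almost every real `θ`, all bases `b ≥ 2` and `u ≥ 0`: if `v > u` there is `α ≥ 1` such that ALL the pairs
`(x, y)` of the question for which the numerator or the denominator of `y` has a common string with `θ` of precision
`H(y) ^ (-v)`, at any place up to the `H(y) ^ u`-th digit of `θ`, satisfy the inequality of the question with `B`, `α`,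
`ε` and every `β ≥ 0`; for `α ≥ 1`, `β ≥ 0` only finitely many of these pairs violate it if `v > u + 2 / α`, and for each
`x` only finitely many of these `y` if `v > u + 1 / (α B)`. One null set for all `b`, `B`, `ε`, `α`, `β`, `u`, `v`.

(2) Let `r ≥ 1`, `w ≥ 0` and let `N_1, …, N_r` be any real functions of the pairs. The same is true for almost all
`(θ_1, …, θ_r)` and the pairs for which each `N_k (x, y)` has a common string with `θ_k` of precision `H(y) ^ (-v)`,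
`b ^ i ≤ b H(y) ^ w`, up to the `H(y) ^ u`-th digit, with `2 / (α r)` and `1 / (α B r)` in place of `2 / α` and
`1 / (α B)`. -/
theorem result :
    (∀ᵐ θ : ℝ, ∀ b : ℕ, 2 ≤ b → ∀ (B : ℕ) (ε : ℝ), ε < 1 / 2 → 2 ≤ ε * B → ∀ u v : ℝ, 0 ≤ u →
      (u < v → ∃ α : ℝ, 1 ≤ α ∧ ∀ β : ℝ, 0 ≤ β → ∀ x y : ℚ, Admissible B x y → OneString b θ u v y →
        Holds B α β ε x y) ∧
      (∀ α β : ℝ, 1 ≤ α → 0 ≤ β → u + 2 / α < v →
        {t : ℚ × ℚ | Admissible B t.1 t.2 ∧ OneString b θ u v t.2 ∧ ¬ Holds B α β ε t.1 t.2}.Finite) ∧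
      (∀ α β : ℝ, 1 ≤ α → 0 ≤ β → u + 1 / (α * B) < v → ∀ x : ℚ,
        {y : ℚ | Admissible B x y ∧ OneString b θ u v y ∧ ¬ Holds B α β ε x y}.Finite)) ∧
    (∀ (r : ℕ) (N : Fin r → ℚ × ℚ → ℝ) (w : ℝ), 1 ≤ r → 0 ≤ w →
      ∀ᵐ θ : Fin r → ℝ, ∀ b : ℕ, 2 ≤ b → ∀ (B : ℕ) (ε : ℝ), ε < 1 / 2 → 2 ≤ ε * B → ∀ u v : ℝ, 0 ≤ u →
        (u < v → ∃ α : ℝ, 1 ≤ α ∧ ∀ β : ℝ, 0 ≤ β → ∀ x y : ℚ, Admissible B x y → Strings b θ N w u v x y →
          Holds B α β ε x y) ∧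
        (∀ α β : ℝ, 1 ≤ α → 0 ≤ β → u + 2 / α / r < v →
          {t : ℚ × ℚ | Admissible B t.1 t.2 ∧ Strings b θ N w u v t.1 t.2 ∧ ¬ Holds B α β ε t.1 t.2}.Finite) ∧
        (∀ α β : ℝ, 1 ≤ α → 0 ≤ β → u + 1 / (α * B) / r < v → ∀ x : ℚ,
          {y : ℚ | Admissible B x y ∧ Strings b θ N w u v x y ∧ ¬ Holds B α β ε x y}.Finite)) := by
  refine ⟨?_, fun r N w hr hw => ?_⟩
  · have hmp := (volume_preserving_funUnique (Fin 1) ℝ).symm
    have n1 := hmp.quasiMeasurePreserving.ae (fin_pairs (r := 1) le_rfl (fun _ t => |((t.2.num : ℤ) : ℝ)|) zero_le_one)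
    have n2 := hmp.quasiMeasurePreserving.ae (fin_fixed (r := 1) le_rfl (fun _ t => |((t.2.num : ℤ) : ℝ)|) zero_le_one)
    have d1 := hmp.quasiMeasurePreserving.ae (fin_pairs (r := 1) le_rfl (fun _ t => ((t.2.den : ℕ) : ℝ)) zero_le_one)
    have d2 := hmp.quasiMeasurePreserving.ae (fin_fixed (r := 1) le_rfl (fun _ t => ((t.2.den : ℕ) : ℝ)) zero_le_one)
    filter_upwards [n1, n2, d1, d2] with θ n1 n2 d1 d2 b hb B ε hε hB u v hu
    have hpairs : ∀ α β : ℝ, 1 ≤ α → 0 ≤ β → u + 2 / α < v →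
        {t : ℚ × ℚ | Admissible B t.1 t.2 ∧ OneString b θ u v t.2 ∧ ¬ Holds B α β ε t.1 t.2}.Finite := by
      intro α β hα hβ hv
      have hv' : u + 2 / α / ((1 : ℕ) : ℝ) < v := by simpa using hv
      refine ((n1 b hb B α β ε u v hα hβ hε hB hu hv').union (d1 b hb B α β ε u v hα hβ hε hB hu hv')).subset ?_
      rintro t ⟨h1, h2, h3⟩
      rcases h2 with h2 | h2
      · exact Or.inl ⟨h1, fun k => by rw [Real.rpow_one]; exact h2, h3⟩
      · exact Or.inr ⟨h1, fun k => by rw [Real.rpow_one]; exact h2, h3⟩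
    refine ⟨fun hv => ?_, hpairs, fun α β hα hβ hv x => ?_⟩
    · obtain ⟨a, ha1, ha2⟩ := exists_a hv
      exact all_of_finite hε hB (S := fun _ y => OneString b θ u v y) ha1 (hpairs a 0 ha1 le_rfl ha2)
    · have hv' : u + 1 / (α * B) / ((1 : ℕ) : ℝ) < v := by simpa using hv
      refine ((n2 b hb B α β ε u v hα hβ hε hB hu hv' x).union (d2 b hb B α β ε u v hα hβ hε hB hu hv' x)).subset ?_
      rintro y ⟨h1, h2, h3⟩
      rcases h2 with h2 | h2
      · exact Or.inl ⟨h1, fun k => by rw [Real.rpow_one]; exact h2, h3⟩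
      · exact Or.inr ⟨h1, fun k => by rw [Real.rpow_one]; exact h2, h3⟩
  · filter_upwards [fin_pairs hr N hw, fin_fixed hr N hw] with θ h1 h2 b hb B ε hε hB u v hu
    refine ⟨fun hv => ?_, fun α β hα hβ hv => h1 b hb B α β ε u v hα hβ hε hB hu hv,
      fun α β hα hβ hv x => h2 b hb B α β ε u v hα hβ hε hB hu hv x⟩
    obtain ⟨a, ha1, ha2⟩ := exists_a hv
    have hr1 : (1 : ℝ) ≤ r := by exact_mod_cast hr
    have ha3 : u + 2 / a / r < v := by
      refine lt_of_le_of_lt ?_ ha2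
      have : 2 / a / r ≤ 2 / a := div_le_self (by positivity) hr1
      linarith
    exact all_of_finite hε hB (S := fun x y => Strings b θ N w u v x y) ha1 (h1 b hb B a 0 ε u v ha1 le_rfl hε hB hu ha3)

end Pool.Agent.Results.MP_05f553_nt.CommonDigitStrings
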