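import Pool.Agent.Zk8.LR.F
import Pool.Agent.Zk8.LR.X
import Pool.Agent.Results.MP_05f553_nt.MultiplicativeValues

/-!
# Philippon's inequality near ranks of apparition and near all indices `w` with `m ∣ U_w` in Lucas sequences

Let `U_0 = 0`, `U_1 = 1`, `U_(n+2) = P U_(n+1) - Q U_n` be the Lucas sequence with the integral parameters `P`, `Q`; it is
nondegenerate if `U_n ≠ 0` for all `n ≥ 1`. The rank of apparition of a prime `p` is the least `w ≥ 1` with `p ∣ U_w`. Examples:
for `P = a + b`, `Q = a b` it is the multiplicative order of the rational number `a / b` modulo `p`; for `P = 1`, `Q = -1` it is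
the rank of `p` in the Fibonacci sequence. In general it is the order of a matrix of trace `P` and determinant `Q` in
`PGL_2 (ℤ / p)`.

Let `Π n` say that Philippon's inequality holds for ALL nonzero rationals `x` (case 1, with `s = 2 A / α`), or for all those
of height at most `T n ^ γ` (case 2, with `s = 2 γ + A / (α B)`), and all `y` of height at most `n ^ A` with numerator `± n` or
denominator `n`. Let `G` have steps bounded below by a positive constant and growth at most `v ^ d`, for example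
`G v = a v ^ d`, let `0 ≤ t ≤ 1` and `θ = d s + t`. Then `Π n` holds for EVERY integer `n` with `|n - G w| ≤ w ^ t`

* for `w` the rank of apparition of `p` in EVERY nondegenerate Lucas sequence with `|P|, |Q| ≤ p ^ c`, `c < 1 / 2`, for all primes
  `p ≤ N` but `O (N ^ (1 - η))`, if `θ < 1`,
* for EVERY index `w ≤ N ^ R` with `m ∣ U_w` for some nondegenerate Lucas sequence with `|P|, |Q| ≤ exp (c' √(log N))`, for all
  `m ≤ N` but `N / (log N) ^ U`, if `R θ < 1 / 2`,
* for EVERY `w ≤ N ^ R` such that for all large primes `p` dividing `m` exactly once `w` is divisible by `p` or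
  `gcd (w, p - 1) ≥ p ^ (1 - l)` or `gcd (w, p + 1) ≥ p ^ (1 - l)`, for all `m ≤ N` but `N / (log N) ^ U`, if `R θ + l < 1`.

The number of exceptional `n` up to `X` is `O (X ^ (s + ε))` (starting file `FewExceptions`). In the last two families every
`m` has a power of `N` admissible `w`, so this count alone does not suffice for them. The file `MultiplicativeOrders` treats
the orders of the integers `a` modulo `p` (`|a| ≤ p ^ c`, `c < 1`), the exponents `w` with `m ∣ a ^ w - 1`, and `p - 1` alone.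
-/

set_option autoImplicit false

namespace Pool.Agent.Results.MP_05f553_nt.LucasSequences

open Pool.Agent.N733.TG (Expanding expanding_pow)
open Pool.Agent.Zk8.LR (U Nondeg Everywhere good_everywhere U_add_mul nondeg_add_mul U_fib nondeg_fib)
open Pool.Agent.Results.MP_05f553_nt.MultiplicativeValues (hgt Good BadG countG good_iff)

/-- The properties of `n` in question, with the exponent `s`. Case 1: the inequality of Philippon holds for ALL nonzero
rationals `x` and all nonzero `y` of height at most `n ^ A` with numerator `± n` or denominator `n`. Case 2: the same for all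
nonzero `x` of height at most `T n ^ γ`. -/
def Case (B : ℕ) (α β ε A s : ℝ) (P : ℕ → Prop) : Prop :=
  (s = 2 * A / α ∧ ∀ n : ℕ, P n ↔ ∀ x : ℚ, x ≠ 0 → Good B α β ε A x n) ∨
  ∃ T γ : ℝ, 0 ≤ γ ∧ s = 2 * γ + A / (α * B) ∧
    ∀ n : ℕ, P n ↔ ∀ x : ℚ, x ≠ 0 → hgt x ≤ T * (n : ℝ) ^ γ → Good B α β ε A x n

lemma good_zero (B : ℕ) (α β ε A : ℝ) (x : ℚ) : Good B α β ε A x 0 := by
  intro y hy _ _ h _
  exfalso
  rcases h with h | h
  · exact hy (Rat.num_eq_zero.1 (Int.natAbs_eq_zero.1 h))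
  · exact y.den_ne_zero h

lemma Case.zero {B : ℕ} {α β ε A s : ℝ} {P : ℕ → Prop} (h : Case B α β ε A s P) : P 0 := by
  rcases h with ⟨-, h⟩ | ⟨T, γ, -, -, h⟩
  · exact (h 0).2 fun x _ => good_zero B α β ε A x
  · exact (h 0).2 fun x _ _ => good_zero B α β ε A x

lemma Case.nonneg {B : ℕ} {α β ε A s : ℝ} {P : ℕ → Prop} (h : Case B α β ε A s P) (hα : 1 ≤ α) (hA : 1 ≤ A) : 0 ≤ s := by
  rcases h with ⟨h, -⟩ | ⟨T, γ, hγ, h, -⟩
  · rw [h]
    positivity
  · rw [h]
    positivity

/-- the number of the exceptional `n` -/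
lemma Case.count {B : ℕ} {α β ε A s : ℝ} {P : ℕ → Prop} (h : Case B α β ε A s P) (hα : 1 ≤ α) (hβ : 0 ≤ β)
    (hε : ε < 1 / 2) (hB : 2 ≤ ε * B) (hA : 1 ≤ A) : ∀ δ : ℝ, 0 < δ → ∃ C : ℝ, ∀ X : ℕ, 1 ≤ X →
      ({t : ℕ | 1 ≤ t ∧ t ≤ X ∧ True ∧ ¬ P t}.ncard : ℝ) ≤ C * (X : ℝ) ^ (s + δ) := by
  classical
  have key : ∀ (W : Set ℕ) (X : ℕ), (∀ t : ℕ, ¬ P t → t ∈ W) →
      {t : ℕ | 1 ≤ t ∧ t ≤ X ∧ True ∧ ¬ P t}.ncard ≤ ((Finset.Ioc 0 X).filter (fun m => m ∈ W)).card := by
    intro W X hW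
    rw [← Set.ncard_coe_finset]
    refine Set.ncard_le_ncard ?_ (Finset.finite_toSet _)
    rintro t ⟨h1, h2, -, h3⟩
    exact Finset.mem_coe.2 (Finset.mem_filter.2 ⟨Finset.mem_Ioc.2 ⟨h1, h2⟩, hW t h3⟩)
  intro δ hδ
  rcases h with ⟨hs, h⟩ | ⟨T, γ, hγ, hs, h⟩
  · obtain ⟨C, hC⟩ := SequenceHeights.count B α β ε A hα hβ hε hB hA δ hδ
    refine ⟨C, fun X hX => le_trans (Nat.cast_le.2 (key (SequenceHeights.Bad B α β ε A) X ?_)) ?_⟩
    · intro t ht
      rw [h t] at ht
      push Not at ht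
      obtain ⟨x, hx, hg⟩ := ht
      exact ⟨x, hx, fun h1 => hg ((good_iff _ _ _ _ _ _ _).2 h1)⟩
    · have e : s = A * (2 / α) := by rw [hs]; ring
      rw [e]
      exact le_trans (le_of_eq (by congr!)) (hC X hX)
  · obtain ⟨C, hC⟩ := countG B α β ε A (max T 1) γ hα hβ hε hB hA (le_max_right _ _) hγ δ hδ
    refine ⟨C, fun X hX => le_trans (Nat.cast_le.2 (key (BadG B α β ε A (max T 1) γ) X ?_)) ?_⟩
    · intro t ht
      rw [h t] at ht
      push Not at ht
      obtain ⟨x, hx, hh, hg⟩ := ht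
      exact ⟨x, hx, hh.trans (mul_le_mul_of_nonneg_right (le_max_left _ _) (by positivity)), hg⟩
    · rw [hs]
      exact le_trans (le_of_eq (by congr!)) (hC X hX)

/-- **Theorem.** Let `B ≥ 1`, `α ≥ 1`, `β ≥ 0`, `2 / B ≤ ε < 1 / 2`, `A ≥ 1` and `0 ≤ t ≤ 1`, let `Π` and `s` be as in
`Case`, and let `G` have steps `≥ a > 0` and growth at most `v ^ d`, for example `G v = a v ^ d` with `a > 0`, `d ≥ 1`. Then the
three statements of `Everywhere`, about the ranks of apparition of almost all primes in all nondegenerate Lucas sequences with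
small parameters, about numbers sharing large divisors with `p - 1`, `p` or `p + 1` for the large primes `p` dividing `m`,
and about the indices `w` with `m ∣ U_w`, hold with `θ = d * s + t` for the property: `Π n` for ALL natural numbers `n` with
`|n - G w| ≤ w ^ t`. The sequence with `P = a + b`, `Q = a b` is `(a ^ n - b ^ n) / (a - b)`, nondegenerate for `|a| ≠ |b|`, and
`P = 1`, `Q = -1` gives the Fibonacci sequence. -/
theorem result (B : ℕ) (α β ε A t : ℝ) (hα : 1 ≤ α) (hβ : 0 ≤ β) (hε : ε < 1 / 2) (hB : 2 ≤ ε * B) (hA : 1 ≤ A)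
    (ht : 0 ≤ t) (ht1 : t ≤ 1) :
    (∀ (s : ℝ) (P : ℕ → Prop), Case B α β ε A s P → ∀ (G : ℕ → ℝ) (d : ℝ), Expanding G d →
      Everywhere (d * s + t) (fun w => ∀ n : ℕ, |(n : ℝ) - G w| ≤ (w : ℝ) ^ t → P n)) ∧
    (∀ a d : ℝ, 0 < a → 1 ≤ d → Expanding (fun v => a * (v : ℝ) ^ d) d) ∧
    (∀ a b : ℤ, (∀ n : ℕ, U (a + b) (a * b) n * (a - b) = a ^ n - b ^ n) ∧
      (|a| ≠ |b| → Nondeg (a + b) (a * b))) ∧
    (∀ n : ℕ, U 1 (-1) n = Nat.fib n) ∧ Nondeg 1 (-1) := by
  refine ⟨fun s P hP G d hG => ?_, fun a d ha hd => expanding_pow ha hd,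
    fun a b => ⟨U_add_mul a b, nondeg_add_mul⟩, U_fib, nondeg_fib⟩
  have key := good_everywhere P hG (s := s) (κ := t) (hP.nonneg hα hA) ht ht1
    (by
      intro δ hδ
      obtain ⟨C, hC⟩ := hP.count hα hβ hε hB hA δ hδ
      refine ⟨C, fun X hX => le_trans (le_of_eq ?_) (hC X hX)⟩
      simp only [true_and])
  refine key.mono fun w _ hw n hn => ?_
  rcases Nat.eq_zero_or_pos n with h0 | h0
  · rw [h0]
    exact hP.zero
  · exact hw n h0 hn

end Pool.Agent.Results.MP_05f553_nt.LucasSequences
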